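import Mathlib

set_option autoImplicit false

namespace Pool.Agent.Work.Disc

open Finset

/-- Sylvester matrix with integer entries on `Fin s → Bool` -/
def syl (s : ℕ) (a b : Fin s → Bool) : ℤ := ∏ i, (if a i && b i then (-1 : ℤ) else 1)

lemma syl_pm (s : ℕ) (a b : Fin s → Bool) : syl s a b = 1 ∨ syl s a b = -1 := by
  unfold syl
  induction (univ : Finset (Fin s)) using Finset.induction_on with
  | empty => simp
  | insert i t hi ih =>
    rw [prod_insert hi]
    rcases ih with h | h <;> rw [h] <;> split_ifs <;> simp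

lemma syl_symm (s : ℕ) (a b : Fin s → Bool) : syl s a b = syl s b a := by
  unfold syl
  apply prod_congr rfl
  intro i _
  rw [Bool.and_comm]

lemma syl_orth (s : ℕ) (a a' : Fin s → Bool) :
    ∑ b, syl s a b * syl s a' b = if a = a' then (2:ℤ)^s else 0 := by
  unfold syl
  simp_rw [← prod_mul_distrib]
  have h := Finset.sum_prod_piFinset (univ : Finset Bool)
    (fun (i : Fin s) (c : Bool) => (if a i && c then (-1 : ℤ) else 1) * (if a' i && c then (-1 : ℤ) else 1))
  simp only [Fintype.piFinset_univ] at h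
  rw [h]
  split_ifs with heq
  · subst heq
    have : ∀ i : Fin s, ∑ c : Bool, ((if a i && c then (-1 : ℤ) else 1) * (if a i && c then (-1 : ℤ) else 1)) = 2 := by
      intro i; cases a i <;> simp
    simp_rw [this]; simp
  · obtain ⟨i, hi⟩ := Function.ne_iff.mp heq
    apply prod_eq_zero (mem_univ i)
    cases h1 : a i <;> cases h2 : a' i <;> simp_all

/-- the real matrix -/
noncomputable def gg (s : ℕ) : Matrix (Fin s → Bool) (Fin s → Bool) ℝ := fun a b => (syl s a b : ℝ)

lemma gg_mul_transpose (s : ℕ) : gg s * (gg s).transpose = ((2:ℝ)^s) • (1 : Matrix _ _ ℝ) := by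
  ext a a'
  rw [Matrix.mul_apply, Matrix.smul_apply, Matrix.one_apply]
  simp only [Matrix.transpose_apply, gg]
  have h := syl_orth s a a'
  have h' : ∑ b, (syl s a b : ℝ) * (syl s a' b : ℝ) = if a = a' then (2:ℝ)^s else 0 := by
    exact_mod_cast congrArg (Int.cast : ℤ → ℝ) h
  rw [h']
  split_ifs <;> simp

lemma gg_transpose (s : ℕ) : (gg s).transpose = gg s := by
  ext a b
  simp only [Matrix.transpose_apply, gg]
  rw [syl_symm]

lemma gg_mul_self (s : ℕ) : gg s * gg s = ((2:ℝ)^s) • (1 : Matrix _ _ ℝ) := by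
  have := gg_mul_transpose s
  rwa [gg_transpose] at this

/-- `|G z|^2 = 2^s |z|^2` -/
lemma gg_norm (s : ℕ) (z : (Fin s → Bool) → ℝ) :
    ∑ t, ((gg s).mulVec z t)^2 = (2:ℝ)^s * ∑ j, (z j)^2 := by
  have h1 : ∑ t, ((gg s).mulVec z t)^2 = dotProduct ((gg s).mulVec z) ((gg s).mulVec z) := by
    simp [dotProduct, sq]
  have h2 : ∑ j, (z j)^2 = dotProduct z z := by simp [dotProduct, sq]
  rw [h1, h2, Matrix.dotProduct_mulVec, Matrix.vecMul_mulVec, gg_transpose, gg_mul_self]
  simp [Matrix.vecMul_smul, Matrix.vecMul_one]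

end Pool.Agent.Work.Disc
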