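import Mathlib

set_option autoImplicit false

namespace Pool.Agent.Work.Disc

open Finset

/-- partial sums of the `K`-th row of Pascal's triangle -/
def F (K a : ℕ) : ℕ := ∑ i ∈ range a, K.choose i

lemma F_succ (K a : ℕ) : F K (a+1) = F K a + K.choose a := by
  simp [F, sum_range_succ]

lemma F_zero (K : ℕ) : F K 0 = 0 := by simp [F]

lemma F_mono (K : ℕ) {a b : ℕ} (h : a ≤ b) : F K a ≤ F K b := by
  unfold F
  exact sum_le_sum_of_subset (range_mono h)

lemma F_pos (K : ℕ) {a : ℕ} (h : 1 ≤ a) : 0 < F K a := by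
  have h1 : F K 1 ≤ F K a := F_mono K h
  have h2 : F K 1 = 1 := by simp [F]
  omega

lemma choose_logconc (K i a : ℕ) (h : i ≤ a) :
    K.choose i * K.choose (a+1) ≤ K.choose (i+1) * K.choose a := by
  have h1 := Nat.choose_succ_right_eq K a
  have h2 := Nat.choose_succ_right_eq K i
  have h3 : K - a ≤ K - i := Nat.sub_le_sub_left h K
  have key : (K.choose i * K.choose (a+1)) * ((a+1)*(i+1)) ≤
      (K.choose (i+1) * K.choose a) * ((a+1)*(i+1)) := by
    calc (K.choose i * K.choose (a+1)) * ((a+1)*(i+1))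
        = K.choose i * (K.choose (a+1) * (a+1)) * (i+1) := by ring
      _ = K.choose i * (K.choose a * (K - a)) * (i+1) := by rw [h1]
      _ ≤ K.choose i * (K.choose a * (K - i)) * (a+1) := by gcongr
      _ = (K.choose i * (K - i)) * K.choose a * (a+1) := by ring
      _ = (K.choose (i+1) * (i+1)) * K.choose a * (a+1) := by rw [h2]
      _ = _ := by ring
  exact Nat.le_of_mul_le_mul_right key (by positivity)

lemma F_choose (K a : ℕ) : F K a * K.choose (a+1) ≤ F K (a+1) * K.choose a := by
  have h1 : F K (a+1) = (∑ i ∈ range a, K.choose (i+1)) + 1 := by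
    simp [F, sum_range_succ']
  have h2 : F K a * K.choose (a+1) ≤ (∑ i ∈ range a, K.choose (i+1)) * K.choose a := by
    unfold F
    rw [sum_mul, sum_mul]
    apply sum_le_sum
    intro i hi
    exact choose_logconc K i a (le_of_lt (mem_range.mp hi))
  calc F K a * K.choose (a+1) ≤ (∑ i ∈ range a, K.choose (i+1)) * K.choose a := h2
    _ ≤ F K (a+1) * K.choose a := by
      rw [h1]; gcongr; omega

lemma F_logconc (K a : ℕ) : F K a * F K (a+2) ≤ F K (a+1) * F K (a+1) := by
  have h := F_choose K a
  have h1 := F_succ K (a+1)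
  have h2 := F_succ K a
  rw [show a + 2 = a + 1 + 1 from rfl, h1]
  nlinarith

/-- the ratio of consecutive partial sums, below position `b`. -/
lemma F_ratio (K b i : ℕ) : F K (b - i) * F K (b+1) ≤ F K (b+1-i) * F K b := by
  induction i with
  | zero => simp [Nat.mul_comm]
  | succ i ih =>
    by_cases hi : i < b
    · -- a = b - (i+1)
      obtain ⟨a, ha⟩ : ∃ a, b - i = a + 1 := ⟨b - i - 1, by omega⟩
      have e1 : b - (i+1) = a := by omega
      have e2 : b + 1 - (i+1) = a + 1 := by omega
      have e3 : b + 1 - i = a + 2 := by omega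
      rw [e1, e2]
      rw [ha, e3] at ih
      have hl := F_logconc K a
      have hp : 0 < F K (a+2) := F_pos K (by omega)
      have hp1 : 0 < F K (a+1) := F_pos K (by omega)
      -- F a * F(b+1) * F (a+2) ≤ F (a+1)^2 F(b+1) ≤ F(a+1) * F(a+2) * F b
      have : (F K a * F K (b+1)) * F K (a+2) ≤ (F K (a+1) * F K b) * F K (a+2) := by
        calc (F K a * F K (b+1)) * F K (a+2) = (F K a * F K (a+2)) * F K (b+1) := by ring
          _ ≤ (F K (a+1) * F K (a+1)) * F K (b+1) := by gcongr
          _ = F K (a+1) * (F K (a+1) * F K (b+1)) := by ring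
          _ ≤ F K (a+1) * (F K (a+2) * F K b) := by gcongr
          _ = _ := by ring
      exact Nat.le_of_mul_le_mul_right this hp
    · have e1 : b - (i+1) = 0 := by omega
      rw [e1, F_zero]; simp

/-- geometric decay of the partial sums below the centre -/
lemma F_geom (K b i : ℕ) :
    (F K (b+1-i) : ℝ) ≤ (F K (b+1) : ℝ) * ((F K b : ℝ) / (F K (b+1) : ℝ))^i := by
  have hp : (0:ℝ) < F K (b+1) := by exact_mod_cast F_pos K (by omega)
  induction i with
  | zero => simp
  | succ i ih =>
    have h := F_ratio K b i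
    have h' : (F K (b - i) : ℝ) * F K (b+1) ≤ F K (b+1-i) * F K b := by exact_mod_cast h
    have e : b + 1 - (i+1) = b - i := by omega
    rw [e, pow_succ, ← mul_assoc]
    calc (F K (b-i) : ℝ) ≤ (F K (b+1-i) : ℝ) * ((F K b : ℝ) / F K (b+1)) := by
          rw [mul_div_assoc', le_div_iff₀ hp]; exact h'
      _ ≤ _ := by gcongr

lemma F_up (l j : ℕ) : F (2*l) (l+1+j) ≤ F (2*l) (l+1) + j * (2*l).choose l := by
  induction j with
  | zero => simp
  | succ j ih =>
    have : F (2*l) (l+1+(j+1)) = F (2*l) (l+1+j) + (2*l).choose (l+1+j) := F_succ _ _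
    rw [this]
    have h2 : (2*l).choose (l+1+j) ≤ (2*l).choose l := by
      have := Nat.choose_le_centralBinom (l+1+j) l
      simpa [Nat.centralBinom] using this
    calc _ ≤ (F (2*l) (l+1) + j * (2*l).choose l) + (2*l).choose l := by gcongr
      _ = _ := by ring

/-- `2 * F (2l) (l+1) = 4^l + C(2l,l)` -/
lemma F_center (l : ℕ) : 2 * F (2*l) (l+1) = 4^l + (2*l).choose l := by
  have h1 : ∑ i ∈ range (2*l+1), (2*l).choose i = 2^(2*l) := Nat.sum_range_choose (2*l)
  have h2 : ∑ i ∈ range (2*l+1), (2*l).choose i =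
      (∑ i ∈ range (l+1), (2*l).choose i) + ∑ i ∈ range l, (2*l).choose (l+1+i) := by
    rw [show 2*l+1 = (l+1) + l by ring, sum_range_add]
  have h3 : ∑ i ∈ range l, (2*l).choose (l+1+i) = ∑ i ∈ range l, (2*l).choose i := by
    rw [← sum_range_reflect]
    apply sum_congr rfl
    intro i hi
    have hi' := mem_range.mp hi
    have : l + 1 + (l - 1 - i) = 2*l - i := by omega
    rw [this]
    exact Nat.choose_symm (by omega)
  have h4 : F (2*l) (l+1) = F (2*l) l + (2*l).choose l := F_succ _ _
  unfold F at *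
  rw [h3] at h2
  have h5 : (2:ℕ)^(2*l) = 4^l := by rw [pow_mul]; norm_num
  omega

end Pool.Agent.Work.Disc
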