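import Mathlib
import Pool.Agent.Work.MP_69459d_co.Binom

set_option autoImplicit false

namespace Pool.Agent.Work.Disc

open Finset

/-- centre partial sum as a real -/
noncomputable def S0 (l : ℕ) : ℝ := (F (2*l) (l+1) : ℝ)

/-- central binomial over the centre partial sum -/
noncomputable def rr (l : ℕ) : ℝ := ((2*l).choose l : ℝ) / S0 l

lemma S0_eq (l : ℕ) : S0 l = ((4:ℝ)^l + (2*l).choose l) / 2 := by
  have h := F_center l
  have h' : (2:ℝ) * (F (2*l) (l+1) : ℝ) = (4:ℝ)^l + (2*l).choose l := by exact_mod_cast h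
  unfold S0; linarith

lemma choose_pos' (l : ℕ) : (0:ℝ) < (2*l).choose l := by
  exact_mod_cast Nat.choose_pos (by omega)

lemma S0_pos (l : ℕ) : 0 < S0 l := by
  rw [S0_eq]; have := choose_pos' l; positivity

lemma rr_pos (l : ℕ) : 0 < rr l := div_pos (choose_pos' l) (S0_pos l)

lemma F_up_exp (l j : ℕ) : (F (2*l) (l+1+j) : ℝ) ≤ S0 l * Real.exp (rr l * j) := by
  have h := F_up l j
  have h' : (F (2*l) (l+1+j) : ℝ) ≤ (F (2*l) (l+1) : ℝ) + j * (2*l).choose l := by exact_mod_cast h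
  have hs := S0_pos l
  have e : S0 l * (1 + rr l * j) = S0 l + j * (2*l).choose l := by
    unfold rr; field_simp
  calc (F (2*l) (l+1+j) : ℝ) ≤ S0 l + j * (2*l).choose l := h'
    _ = S0 l * (1 + rr l * j) := e.symm
    _ ≤ S0 l * Real.exp (rr l * j) := by
        gcongr
        have := Real.add_one_le_exp (rr l * j)
        linarith

lemma F_down_exp (l i : ℕ) : (F (2*l) (l+1-i) : ℝ) ≤ S0 l * Real.exp (-(rr l * i)) := by
  have h := F_geom (2*l) l i
  have hs := S0_pos l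
  have e : (F (2*l) l : ℝ) = S0 l - (2*l).choose l := by
    have : F (2*l) (l+1) = F (2*l) l + (2*l).choose l := F_succ _ _
    unfold S0; rw [this]; push_cast; ring
  have e2 : (F (2*l) l : ℝ) / (F (2*l) (l+1) : ℝ) = 1 - rr l := by
    rw [e]; change (S0 l - _) / S0 l = _
    unfold rr; field_simp
  have h0 : 0 ≤ 1 - rr l := by rw [← e2]; positivity
  rw [e2] at h
  calc (F (2*l) (l+1-i) : ℝ) ≤ S0 l * (1 - rr l)^i := h
    _ ≤ S0 l * (Real.exp (-rr l))^i := by
        gcongr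
        have := Real.add_one_le_exp (-rr l)
        linarith
    _ = S0 l * Real.exp (-(rr l * i)) := by
        rw [← Real.exp_nat_mul]; congr 2; ring

/-- the distribution function of the symmetric binomial law, unnormalised -/
noncomputable def cdf (l : ℕ) (s : ℝ) : ℝ :=
  ∑ i ∈ range (2*l+1), if ((2*i:ℝ) - 2*l ≤ s) then ((2*l).choose i : ℝ) else 0

lemma cdf_le_F (l : ℕ) (s : ℝ) (a : ℕ) (h : ∀ i : ℕ, (2*i:ℝ) - 2*l ≤ s → i < a) :
    cdf l s ≤ (F (2*l) a : ℝ) := by
  unfold cdf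
  rw [← sum_filter]
  unfold F
  push_cast
  apply sum_le_sum_of_subset_of_nonneg
  · intro i hi
    rw [mem_filter] at hi
    exact mem_range.mpr (h i hi.2)
  · intro i _ _; positivity

lemma cdf_le_exp (l : ℕ) (s : ℝ) : cdf l s ≤ S0 l * Real.exp (rr l * s / 2) := by
  have hr := rr_pos l
  by_cases hs : 0 ≤ s
  · set j := ⌊s/2⌋₊ with hj
    have hj1 : (j:ℝ) ≤ s/2 := Nat.floor_le (by positivity)
    have h1 : cdf l s ≤ (F (2*l) (l+1+j) : ℝ) := by
      apply cdf_le_F
      intro i hi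
      have h2 : (i:ℝ) ≤ l + s/2 := by linarith
      by_contra hcon
      push Not at hcon
      have h3 : i - l ≤ j := by
        apply Nat.le_floor
        have : ((i - l : ℕ) : ℝ) = (i:ℝ) - l := by
          rw [Nat.cast_sub (by omega)]
        rw [this]; linarith
      omega
    calc cdf l s ≤ _ := h1
      _ ≤ _ := F_up_exp l j
      _ ≤ _ := by
        have := S0_pos l
        gcongr
        nlinarith
  · push Not at hs
    set i0 := ⌈-s/2⌉₊ with hi0
    have hi1 : -s/2 ≤ (i0:ℝ) := Nat.le_ceil _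
    have h1 : cdf l s ≤ (F (2*l) (l+1-i0) : ℝ) := by
      apply cdf_le_F
      intro i hi
      have h2 : (i:ℝ) ≤ l + s/2 := by linarith
      have h4 : i < l := by
        have : (i:ℝ) < l := by linarith
        exact_mod_cast this
      have h5 : i0 ≤ l - i := by
        apply Nat.ceil_le.mpr
        have : ((l - i : ℕ) : ℝ) = (l:ℝ) - i := by
          rw [Nat.cast_sub (by omega)]
        rw [this]; linarith
      omega
    calc cdf l s ≤ _ := h1
      _ ≤ _ := F_down_exp l i0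
      _ ≤ _ := by
        have := S0_pos l
        gcongr
        nlinarith

/-- `p_l = C(2l,l)/4^l` -/
noncomputable def pp (l : ℕ) : ℝ := ((2*l).choose l : ℝ) / (4:ℝ)^l

lemma pp_succ (l : ℕ) : pp (l+1) = pp l * ((2*l+1)/(2*l+2)) := by
  have h := Nat.succ_mul_centralBinom_succ l
  unfold Nat.centralBinom at h
  have h' : ((l:ℝ)+1) * ((2*(l+1)).choose (l+1) : ℝ) = 2*(2*l+1) * ((2*l).choose l : ℝ) := by
    exact_mod_cast h
  have hl : (0:ℝ) < (l:ℝ)+1 := by positivity
  have e : ((2*(l+1)).choose (l+1) : ℝ) = 2*(2*l+1) * ((2*l).choose l : ℝ) / ((l:ℝ)+1) := by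
    field_simp; linarith
  unfold pp
  rw [e, pow_succ]
  field_simp
  ring

lemma pp_pos (l : ℕ) : 0 < pp l := div_pos (choose_pos' l) (by positivity)

lemma pp_upper (l : ℕ) : (pp l)^2 * (2*l+1) ≤ 1 := by
  induction l with
  | zero => simp [pp]
  | succ l ih =>
    rw [pp_succ]
    have h0 := pp_pos l
    have hl : (0:ℝ) ≤ l := by positivity
    have e : (pp l * ((2*(l:ℝ)+1)/(2*l+2)))^2 * (2*((l+1:ℕ):ℝ)+1)
        = ((pp l)^2 * (2*l+1)) * ((2*l+1)*(2*l+3)/(2*l+2)^2) := by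
      push_cast; field_simp; ring
    rw [e]
    have h1 : ((2*(l:ℝ)+1)*(2*l+3)/(2*l+2)^2) ≤ 1 := by
      rw [div_le_one (by positivity)]; nlinarith
    have h2 : 0 ≤ ((2*(l:ℝ)+1)*(2*l+3)/(2*l+2)^2) := by positivity
    exact mul_le_one₀ ih h2 h1

lemma pp_lower (l : ℕ) : 1 ≤ (pp (l+1))^2 * (4*((l+1:ℕ):ℝ)) := by
  induction l with
  | zero =>
    simp [pp, Nat.choose]; norm_num
  | succ l ih =>
    rw [pp_succ (l+1)]
    have h0 := pp_pos (l+1)
    push_cast at *
    have hl : (0:ℝ) ≤ l := by positivity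
    have e : (pp (l+1) * ((2*((l:ℝ)+1)+1)/(2*(l+1)+2)))^2 * (4*((l:ℝ)+1+1))
        = ((pp (l+1))^2 * (4*(l+1))) * ((2*l+3)^2/(4*(l+1)*(l+2))) := by
      field_simp; ring
    rw [e]
    have h1 : 1 ≤ ((2*(l:ℝ)+3)^2/(4*(l+1)*(l+2))) := by
      rw [le_div_iff₀ (by positivity)]; nlinarith
    calc (1:ℝ) = 1 * 1 := by ring
      _ ≤ _ := by gcongr

lemma S0_pp (l : ℕ) : S0 l = (4:ℝ)^l * ((1 + pp l)/2) := by
  rw [S0_eq]; unfold pp; field_simp

lemma rr_pp (l : ℕ) : rr l = 2 * pp l / (1 + pp l) := by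
  unfold rr
  rw [S0_pp]
  have h := pp_pos l
  have : ((2*l).choose l : ℝ) = (4:ℝ)^l * pp l := by unfold pp; field_simp
  rw [this]
  field_simp

end Pool.Agent.Work.Disc
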