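import Mathlib
import Pool.Agent.Work.MP_69459d_co.Cdf

set_option autoImplicit false

namespace Pool.Agent.Work.Disc

open Finset

/-- sign of a Boolean -/
def sg (b : Bool) : ℝ := if b then 1 else -1

@[simp] lemma sg_true : sg true = 1 := rfl
@[simp] lemma sg_false : sg false = -1 := rfl

lemma sg_beq (a b : Bool) : sg (a == b) = sg a * sg b := by
  cases a <;> cases b <;> simp [sg]

lemma sg_not (a : Bool) : sg (!a) = - sg a := by
  cases a <;> simp [sg]

/-- number of sign vectors with sum at most `s` -/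
noncomputable def cnt (k : ℕ) (s : ℝ) : ℕ :=
  (univ.filter (fun r : Fin k → Bool => ∑ j, sg (r j) ≤ s)).card

/-- Boolean vectors as finite sets -/
def boolEquiv (k : ℕ) : (Fin k → Bool) ≃ Finset (Fin k) where
  toFun r := univ.filter (fun j => r j = true)
  invFun s := fun j => decide (j ∈ s)
  left_inv r := by ext j; simp
  right_inv s := by ext j; simp

lemma sum_bool_card {k : ℕ} (φ : ℕ → ℝ) :
    ∑ r : Fin k → Bool, φ ((univ.filter (fun j => r j = true)).card)
      = ∑ i ∈ range (k+1), (k.choose i : ℝ) * φ i := by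
  have h1 : ∑ r : Fin k → Bool, φ ((univ.filter (fun j => r j = true)).card)
      = ∑ s : Finset (Fin k), φ s.card :=
    Fintype.sum_equiv (boolEquiv k) _ _ (fun r => rfl)
  rw [h1]
  have h2 := Finset.sum_powerset_apply_card φ (x := (univ : Finset (Fin k)))
  simp only [powerset_univ, card_univ, Fintype.card_fin, nsmul_eq_mul] at h2
  exact h2

lemma sum_sg {k : ℕ} (r : Fin k → Bool) :
    ∑ j, sg (r j) = 2 * ((univ.filter (fun j => r j = true)).card : ℝ) - k := by
  have h : ∀ j, sg (r j) = 2 * (if r j = true then (1:ℝ) else 0) - 1 := by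
    intro j; cases r j <;> simp [sg]; norm_num
  simp_rw [h]
  rw [sum_sub_distrib, ← mul_sum, sum_boole]
  simp

lemma cnt_eq_cdf (l : ℕ) (s : ℝ) : (cnt (2*l) s : ℝ) = cdf l s := by
  unfold cnt cdf
  rw [card_filter]
  push_cast
  have h := sum_bool_card (k := 2*l) (fun i => if ((2*i:ℝ) - 2*l ≤ s) then (1:ℝ) else 0)
  calc ∑ r : Fin (2*l) → Bool, (if ∑ j, sg (r j) ≤ s then (1:ℝ) else 0)
      = ∑ r : Fin (2*l) → Bool,
          (if ((2*((univ.filter (fun j => r j = true)).card:ℝ)) - 2*l ≤ s) then (1:ℝ) else 0) := by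
        apply sum_congr rfl
        intro r _
        rw [sum_sg]; push_cast; rfl
    _ = _ := h
    _ = _ := by
        apply sum_congr rfl
        intro i _
        split_ifs <;> simp

lemma cnt_le_two_pow (k : ℕ) (s : ℝ) : (cnt k s : ℝ) ≤ 2^k := by
  unfold cnt
  have h : (univ.filter (fun r : Fin k → Bool => ∑ j, sg (r j) ≤ s)).card ≤ 2^k := by
    calc _ ≤ (univ : Finset (Fin k → Bool)).card := card_filter_le _ _
      _ = 2^k := by simp
  exact_mod_cast h

lemma cnt_hoeffding (k : ℕ) (hk : 0 < k) (s : ℝ) (hs : s ≤ 0) :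
    (cnt k s : ℝ) ≤ 2^k * Real.exp (-(s^2)/(2*k)) := by
  have hk' : (0:ℝ) < k := by exact_mod_cast hk
  set θ : ℝ := -s/k with hθ
  have hθ0 : 0 ≤ θ := by rw [hθ]; apply div_nonneg <;> linarith
  have h1 : (cnt k s : ℝ) * Real.exp (-(θ*s)) ≤
      ∑ r : Fin k → Bool, Real.exp (-(θ * ∑ j, sg (r j))) := by
    unfold cnt
    rw [← nsmul_eq_mul, ← sum_const]
    calc _ ≤ ∑ r ∈ univ.filter (fun r : Fin k → Bool => ∑ j, sg (r j) ≤ s),
          Real.exp (-(θ * ∑ j, sg (r j))) := by
          apply sum_le_sum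
          intro r hr
          rw [mem_filter] at hr
          apply Real.exp_le_exp.mpr
          have := hr.2
          nlinarith
      _ ≤ _ := by
          apply sum_le_sum_of_subset_of_nonneg (filter_subset _ _)
          intro i _ _; positivity
  have h2 : ∑ r : Fin k → Bool, Real.exp (-(θ * ∑ j, sg (r j))) = (2 * Real.cosh θ)^k := by
    have e : ∀ r : Fin k → Bool, Real.exp (-(θ * ∑ j, sg (r j))) =
        ∏ j, Real.exp (-(θ * sg (r j))) := by
      intro r; rw [← Real.exp_sum]; congr 1; rw [mul_sum, sum_neg_distrib]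
    simp_rw [e]
    have := Finset.sum_prod_piFinset (univ : Finset Bool) (fun (_ : Fin k) b => Real.exp (-(θ * sg b)))
    simp only [Fintype.piFinset_univ] at this
    rw [this]
    simp only [Fintype.sum_bool, sg_true, sg_false, prod_const, card_univ, Fintype.card_fin]
    congr 1
    rw [Real.cosh_eq]
    simp only [mul_one, mul_neg, neg_neg]
    ring
  have h3 : (2 * Real.cosh θ)^k ≤ 2^k * Real.exp (k * θ^2/2) := by
    rw [mul_pow]
    gcongr
    calc (Real.cosh θ)^k ≤ (Real.exp (θ^2/2))^k := by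
          gcongr
          exact Real.cosh_le_exp_half_sq θ
      _ = _ := by rw [← Real.exp_nat_mul]; congr 1; ring
  have h4 : (cnt k s : ℝ) * Real.exp (-(θ*s)) ≤ 2^k * Real.exp (k * θ^2/2) := by
    rw [h2] at h1; exact h1.trans h3
  have h5 : (cnt k s : ℝ) = (cnt k s : ℝ) * Real.exp (-(θ*s)) * Real.exp (θ*s) := by
    rw [mul_assoc, ← Real.exp_add]; simp
  rw [h5]
  calc _ ≤ (2^k * Real.exp (k * θ^2/2)) * Real.exp (θ*s) := by gcongr
    _ = 2^k * Real.exp (k * θ^2/2 + θ*s) := by rw [mul_assoc, ← Real.exp_add]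
    _ = _ := by
      congr 2
      rw [hθ]; field_simp; ring

lemma cnt_exp (l : ℕ) (s : ℝ) : (cnt (2*l) s : ℝ) ≤ S0 l * Real.exp (rr l * s / 2) := by
  rw [cnt_eq_cdf]; exact cdf_le_exp l s

/-- count of good rows -/
lemma row_count (k : ℕ) (T M : ℝ) (x : Fin k → Bool) :
    (univ.filter (fun r : Fin k → Bool => |T + ∑ j, sg (r j) * sg (x j)| ≤ M)).card
      ≤ cnt k (M - |T|) := by
  unfold cnt
  by_cases hT : 0 ≤ T
  · apply card_le_card_of_injOn (fun r j => (r j == x j))
    · intro r hr
      simp only [coe_filter, mem_univ, true_and, Set.mem_ofPred_eq] at hr ⊢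
      simp_rw [sg_beq]
      rw [abs_of_nonneg hT]
      have := (abs_le.mp hr).2
      linarith
    · intro r _ r' _ h
      ext j
      have := congrFun h j
      simp only at this
      cases hx : x j <;> cases h1 : r j <;> cases h2 : r' j <;> simp_all
  · push Not at hT
    apply card_le_card_of_injOn (fun r j => !(r j == x j))
    · intro r hr
      simp only [coe_filter, mem_univ, true_and, Set.mem_ofPred_eq] at hr ⊢
      simp_rw [sg_not, sg_beq]
      rw [abs_of_neg hT, sum_neg_distrib]
      have := (abs_le.mp hr).1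
      linarith
    · intro r _ r' _ h
      ext j
      have := congrFun h j
      simp only at this
      cases hx : x j <;> cases h1 : r j <;> cases h2 : r' j <;> simp_all

end Pool.Agent.Work.Disc
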