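import Mathlib
import Pool.Agent.Work.MP_69459d_co.Had
import Pool.Agent.Work.MP_69459d_co.Signs

set_option autoImplicit false

namespace Pool.Agent.Work.Disc

open Finset

/-- Gaussian weight -/
noncomputable def ee (L sn z w : ℝ) : ℝ := Real.exp (-(2*L*(z/sn - w)^2))

lemma ee_pos (L sn z w : ℝ) : 0 < ee L sn z w := Real.exp_pos _

/-- row weight -/
noncomputable def rowf (L h : ℝ) : ℝ := Real.exp (-(L*(h-1)^2)) + Real.exp (-(L*(h+1)^2))

lemma rowf_pos (L h : ℝ) : 0 < rowf L h := by unfold rowf; positivity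

lemma rowf_mul (L sn a b : ℝ) :
    rowf L ((a+b)/sn) * rowf L ((a-b)/sn) =
      (ee L sn a 1 + ee L sn a (-1)) * ee L sn b 0 + ee L sn a 0 * (ee L sn b 1 + ee L sn b (-1)) := by
  unfold rowf ee
  rw [add_mul, mul_add, mul_add, add_mul, mul_add]
  simp only [← Real.exp_add]
  have e1 : -(L * ((a + b) / sn - 1) ^ 2) + -(L * ((a - b) / sn - 1) ^ 2)
      = -(2 * L * (a / sn - 1) ^ 2) + -(2 * L * (b / sn - 0) ^ 2) := by ring
  have e2 : -(L * ((a + b) / sn - 1) ^ 2) + -(L * ((a - b) / sn + 1) ^ 2)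
      = -(2 * L * (a / sn - 0) ^ 2) + -(2 * L * (b / sn - 1) ^ 2) := by ring
  have e3 : -(L * ((a + b) / sn + 1) ^ 2) + -(L * ((a - b) / sn - 1) ^ 2)
      = -(2 * L * (a / sn - 0) ^ 2) + -(2 * L * (b / sn - -1) ^ 2) := by ring
  have e4 : -(L * ((a + b) / sn + 1) ^ 2) + -(L * ((a - b) / sn + 1) ^ 2)
      = -(2 * L * (a / sn - -1) ^ 2) + -(2 * L * (b / sn - 0) ^ 2) := by ring
  rw [e1, e2, e3, e4]
  ring

lemma two_term (L : ℝ) (hL : 0 < L) (w : ℝ) :
    Real.exp (-(L*(1-w)^2)) + Real.exp (-(L*(-1-w)^2)) ≤ 1 + Real.exp (-L) := by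
  rcases le_total 0 w with h | h
  · have h1 : Real.exp (-(L*(1-w)^2)) ≤ 1 := by
      rw [Real.exp_le_one_iff]; have := sq_nonneg (1-w); nlinarith
    have h2 : Real.exp (-(L*(-1-w)^2)) ≤ Real.exp (-L) := by
      apply Real.exp_le_exp.mpr
      have : (1:ℝ) ≤ (-1-w)^2 := by nlinarith
      nlinarith
    linarith
  · have h1 : Real.exp (-(L*(-1-w)^2)) ≤ 1 := by
      rw [Real.exp_le_one_iff]; have := sq_nonneg (-1-w); nlinarith
    have h2 : Real.exp (-(L*(1-w)^2)) ≤ Real.exp (-L) := by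
      apply Real.exp_le_exp.mpr
      have : (1:ℝ) ≤ (1-w)^2 := by nlinarith
      nlinarith
    linarith

lemma three_term (L : ℝ) (hL : 0 < L) (sn z : ℝ) :
    ee L sn z 1 + ee L sn z (-1) + ee L sn z 0 ≤ 1 + Real.exp (-(L/2)) + Real.exp (-(2*L)) := by
  unfold ee
  set s := z/sn with hs
  have key : ∀ s : ℝ, 0 ≤ s → Real.exp (-(2*L*(s-1)^2)) + Real.exp (-(2*L*(s - -1)^2))
      + Real.exp (-(2*L*(s-0)^2)) ≤ 1 + Real.exp (-(L/2)) + Real.exp (-(2*L)) := by
    intro s hs
    have h3 : Real.exp (-(2*L*(s - -1)^2)) ≤ Real.exp (-(2*L)) := by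
      apply Real.exp_le_exp.mpr
      have : (1:ℝ) ≤ (s - -1)^2 := by nlinarith
      nlinarith
    rcases le_total s (1/2) with h | h
    · have h1 : Real.exp (-(2*L*(s-0)^2)) ≤ 1 := by
        rw [Real.exp_le_one_iff]; have := sq_nonneg (s-0); nlinarith
      have h2 : Real.exp (-(2*L*(s-1)^2)) ≤ Real.exp (-(L/2)) := by
        apply Real.exp_le_exp.mpr
        have : (1/4:ℝ) ≤ (s-1)^2 := by nlinarith
        nlinarith
      linarith
    · have h1 : Real.exp (-(2*L*(s-1)^2)) ≤ 1 := by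
        rw [Real.exp_le_one_iff]; have := sq_nonneg (s-1); nlinarith
      have h2 : Real.exp (-(2*L*(s-0)^2)) ≤ Real.exp (-(L/2)) := by
        apply Real.exp_le_exp.mpr
        have : (1/4:ℝ) ≤ (s-0)^2 := by nlinarith
        nlinarith
      linarith
  rcases le_total 0 s with h | h
  · exact key s h
  · have := key (-s) (by linarith)
    have e1 : (-s-1)^2 = (s - -1)^2 := by ring
    have e2 : (-s - -1)^2 = (s-1)^2 := by ring
    have e3 : (-s - 0)^2 = (s-0)^2 := by ring
    rw [e1, e2, e3] at this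
    linarith

variable (s : ℕ)

/-- transform of a sign vector -/
noncomputable def tr (u : (Fin s → Bool) → Bool) : (Fin s → Bool) → ℝ :=
  (gg s).mulVec (fun j => sg (u j))

lemma f_bound (L : ℝ) (hL : 0 < L) (sn : ℝ) (hsn0 : 0 < sn) (hsn : sn^2 = 2 * 2^s)
    (w : (Fin s → Bool) → ℝ) :
    ∑ u : (Fin s → Bool) → Bool, ∏ t, ee L sn (tr s u t) (w t) ≤ (1 + Real.exp (-L))^(2^s) := by
  have hm : (0:ℝ) < (2:ℝ)^s := by positivity
  set om : (Fin s → Bool) → ℝ := (sn/(2:ℝ)^s) • (gg s).mulVec w with hom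
  have h1 : (gg s).mulVec om = sn • w := by
    rw [hom, Matrix.mulVec_smul, Matrix.mulVec_mulVec, gg_mul_self, Matrix.smul_mulVec,
      Matrix.one_mulVec, smul_smul]
    congr 1; field_simp
  have h2 : ∀ u : (Fin s → Bool) → Bool, ∏ t, ee L sn (tr s u t) (w t)
      = ∏ j, Real.exp (-(L*(sg (u j) - om j)^2)) := by
    intro u
    unfold ee
    rw [← Real.exp_sum, ← Real.exp_sum]
    congr 1
    rw [sum_neg_distrib, sum_neg_distrib, ← mul_sum, ← mul_sum]
    congr 1
    have h3 : ∀ t, (gg s).mulVec (fun j => sg (u j) - om j) t = tr s u t - sn * w t := by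
      intro t
      have : (fun j => sg (u j) - om j) = (fun j => sg (u j)) - om := rfl
      rw [this, Matrix.mulVec_sub, h1]
      rfl
    have h4 := gg_norm s (fun j => sg (u j) - om j)
    simp_rw [h3] at h4
    have h5 : ∑ i, (tr s u i / sn - w i)^2 = (∑ i, (tr s u i - sn * w i)^2)/sn^2 := by
      rw [sum_div]
      apply sum_congr rfl
      intro i _
      field_simp
    rw [h5, h4, hsn]
    field_simp
  simp_rw [h2]
  have h6 := Finset.sum_prod_piFinset (univ : Finset Bool)
    (fun (j : Fin s → Bool) (b : Bool) => Real.exp (-(L*(sg b - om j)^2)))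
  simp only [Fintype.piFinset_univ] at h6
  rw [h6]
  calc ∏ j, ∑ b : Bool, Real.exp (-(L*(sg b - om j)^2))
      ≤ ∏ j : Fin s → Bool, (1 + Real.exp (-L)) := by
        apply prod_le_prod
        · intro i _; positivity
        · intro i _
          rw [Fintype.sum_bool, sg_true, sg_false]
          exact two_term L hL _
    _ = _ := by simp

/-- term for a subset -/
noncomputable def AA (L sn : ℝ) (S : Finset (Fin s → Bool)) (u : (Fin s → Bool) → Bool) : ℝ :=
  (∏ t ∈ S, (ee L sn (tr s u t) 1 + ee L sn (tr s u t) (-1))) * ∏ t ∈ univ \ S, ee L sn (tr s u t) 0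

lemma AA_nonneg (L sn : ℝ) (S : Finset (Fin s → Bool)) (u : (Fin s → Bool) → Bool) :
    0 ≤ AA s L sn S u := by
  unfold AA ee; positivity

lemma AA_sum_le (L : ℝ) (hL : 0 < L) (sn : ℝ) (hsn0 : 0 < sn) (hsn : sn^2 = 2 * 2^s)
    (S : Finset (Fin s → Bool)) :
    ∑ u, AA s L sn S u ≤ 2^(S.card) * (1 + Real.exp (-L))^(2^s) := by
  classical
  set W : (Fin s → Bool) → Finset ℝ := fun t => if t ∈ S then {1, -1} else {0} with hW
  have h1 : ∀ u, AA s L sn S u = ∑ w ∈ Fintype.piFinset W, ∏ t, ee L sn (tr s u t) (w t) := by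
    intro u
    rw [← Finset.prod_univ_sum W (fun t w => ee L sn (tr s u t) w)]
    unfold AA
    rw [← prod_sdiff (subset_univ S), mul_comm]
    congr 1
    · apply prod_congr rfl
      intro t ht
      have : t ∉ S := (mem_sdiff.mp ht).2
      simp [hW, this]
    · apply prod_congr rfl
      intro t ht
      simp only [hW, ht, if_true]
      rw [sum_pair (by norm_num)]
  simp_rw [h1]
  rw [sum_comm]
  calc ∑ w ∈ Fintype.piFinset W, ∑ u : (Fin s → Bool) → Bool, ∏ t, ee L sn (tr s u t) (w t)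
      ≤ ∑ w ∈ Fintype.piFinset W, (1 + Real.exp (-L))^(2^s) :=
        sum_le_sum (fun w _ => f_bound s L hL sn hsn0 hsn w)
    _ = ((Fintype.piFinset W).card : ℝ) * (1 + Real.exp (-L))^(2^s) := by
        rw [sum_const, nsmul_eq_mul]
    _ = _ := by
        congr 1
        rw [Fintype.card_piFinset, ← prod_sdiff (subset_univ S)]
        have e1 : ∏ x ∈ univ \ S, (W x).card = 1 := by
          apply prod_eq_one
          intro t ht
          have : t ∉ S := (mem_sdiff.mp ht).2
          simp [hW, this]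
        have e2 : ∏ x ∈ S, (W x).card = 2^S.card := by
          rw [← prod_const]
          apply prod_congr rfl
          intro t ht
          simp only [hW, ht, if_true]
          rw [card_pair (by norm_num)]
        rw [e1, e2]; push_cast; ring

lemma AA_sum_all (L : ℝ) (hL : 0 < L) (sn : ℝ) :
    ∑ S : Finset (Fin s → Bool), ∑ u, AA s L sn S u
      ≤ 2^(2^s) * (1 + Real.exp (-(L/2)) + Real.exp (-(2*L)))^(2^s) := by
  rw [sum_comm]
  have h1 : ∀ u, ∑ S : Finset (Fin s → Bool), AA s L sn S u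
      = ∏ t, ((ee L sn (tr s u t) 1 + ee L sn (tr s u t) (-1)) + ee L sn (tr s u t) 0) := by
    intro u
    rw [prod_add, powerset_univ]; rfl
  simp_rw [h1]
  calc ∑ u : (Fin s → Bool) → Bool, ∏ t, ((ee L sn (tr s u t) 1 + ee L sn (tr s u t) (-1)) + ee L sn (tr s u t) 0)
      ≤ ∑ u : (Fin s → Bool) → Bool, (1 + Real.exp (-(L/2)) + Real.exp (-(2*L)))^(2^s) := by
        apply sum_le_sum
        intro u _
        calc _ ≤ ∏ t : Fin s → Bool, (1 + Real.exp (-(L/2)) + Real.exp (-(2*L))) := by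
              apply prod_le_prod
              · intro t _; unfold ee; positivity
              · intro t _; exact three_term L hL sn _
          _ = _ := by simp
    _ = _ := by simp

/-- the key partition function bound -/
theorem Zbound (a : ℕ) (hs : s = a + 1) (L : ℝ) (hL : 0 < L) (sn : ℝ) (hsn0 : 0 < sn)
    (hsn : sn^2 = 2 * 2^s) :
    ∑ u : (Fin s → Bool) → Bool, ∑ v : (Fin s → Bool) → Bool,
      ∏ t, (rowf L ((tr s u t + tr s v t)/sn) * rowf L ((tr s u t - tr s v t)/sn))
    ≤ 2 * (2^(2^s) * (1 + Real.exp (-(L/2)) + Real.exp (-(2*L)))^(2^s)) *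
        (2^(2^a) * (1 + Real.exp (-L))^(2^s)) := by
  classical
  have h1 : ∀ u v : (Fin s → Bool) → Bool,
      ∏ t, (rowf L ((tr s u t + tr s v t)/sn) * rowf L ((tr s u t - tr s v t)/sn))
      = ∑ S : Finset (Fin s → Bool), AA s L sn S u * AA s L sn (univ \ S) v := by
    intro u v
    simp_rw [rowf_mul]
    rw [prod_add, powerset_univ]
    apply sum_congr rfl
    intro S _
    unfold AA
    rw [prod_mul_distrib, prod_mul_distrib]
    have : univ \ (univ \ S) = S := by simp
    rw [this]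
    ring
  simp_rw [h1]
  have h2 : ∑ u : (Fin s → Bool) → Bool, ∑ v : (Fin s → Bool) → Bool,
      ∑ S : Finset (Fin s → Bool), AA s L sn S u * AA s L sn (univ \ S) v
      = ∑ S : Finset (Fin s → Bool), (∑ u, AA s L sn S u) * (∑ v, AA s L sn (univ \ S) v) := by
    calc _ = ∑ u : (Fin s → Bool) → Bool, ∑ S : Finset (Fin s → Bool),
          ∑ v : (Fin s → Bool) → Bool, AA s L sn S u * AA s L sn (univ \ S) v :=
          sum_congr rfl (fun u _ => sum_comm)
      _ = ∑ S : Finset (Fin s → Bool), ∑ u : (Fin s → Bool) → Bool,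
          ∑ v : (Fin s → Bool) → Bool, AA s L sn S u * AA s L sn (univ \ S) v := sum_comm
      _ = _ := sum_congr rfl (fun S _ => (sum_mul_sum _ _ _ _).symm)
  rw [h2]
  have hc : ∀ S : Finset (Fin s → Bool), S.card + (univ \ S).card = 2^s := by
    intro S
    rw [card_sdiff_of_subset (subset_univ S), card_univ]
    have : S.card ≤ Fintype.card (Fin s → Bool) := card_le_univ S
    simp at this ⊢; omega
  have hC : 0 < (1 + Real.exp (-L))^(2^s) := by positivity
  have h3 : ∀ S : Finset (Fin s → Bool), (∑ u, AA s L sn S u) * (∑ v, AA s L sn (univ \ S) v)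
      ≤ ((∑ u, AA s L sn S u) + (∑ v, AA s L sn (univ \ S) v)) * (2^(2^a) * (1 + Real.exp (-L))^(2^s)) := by
    intro S
    have n1 : 0 ≤ ∑ u, AA s L sn S u := sum_nonneg (fun u _ => AA_nonneg s L sn S u)
    have n2 : 0 ≤ ∑ u, AA s L sn (univ \ S) u := sum_nonneg (fun u _ => AA_nonneg s L sn _ u)
    have hcs := hc S
    have e : 2^s = 2^a + 2^a := by rw [hs, pow_succ]; ring
    rcases le_total S.card (2^a) with h | h
    · have b1 : ∑ u, AA s L sn S u ≤ 2^(2^a) * (1 + Real.exp (-L))^(2^s) := by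
        refine (AA_sum_le s L hL sn hsn0 hsn S).trans ?_
        gcongr
        norm_num
      nlinarith [mul_nonneg n1 n2, mul_le_mul_of_nonneg_right b1 n2, mul_nonneg n1 (le_of_lt (show (0:ℝ) < 2^(2^a) * (1 + Real.exp (-L))^(2^s) by positivity))]
    · have h' : (univ \ S).card ≤ 2^a := by omega
      have b1 : ∑ u, AA s L sn (univ \ S) u ≤ 2^(2^a) * (1 + Real.exp (-L))^(2^s) := by
        refine (AA_sum_le s L hL sn hsn0 hsn (univ \ S)).trans ?_
        gcongr
        norm_num
      nlinarith [mul_nonneg n1 n2, mul_le_mul_of_nonneg_left b1 n1, mul_nonneg n2 (le_of_lt (show (0:ℝ) < 2^(2^a) * (1 + Real.exp (-L))^(2^s) by positivity))]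
  calc _ ≤ ∑ S : Finset (Fin s → Bool), ((∑ u, AA s L sn S u) + (∑ v, AA s L sn (univ \ S) v)) * (2^(2^a) * (1 + Real.exp (-L))^(2^s)) :=
        sum_le_sum (fun S _ => h3 S)
    _ = ((∑ S : Finset (Fin s → Bool), ∑ u, AA s L sn S u) + (∑ S : Finset (Fin s → Bool), ∑ v, AA s L sn (univ \ S) v)) * (2^(2^a) * (1 + Real.exp (-L))^(2^s)) := by
        rw [← sum_mul, sum_add_distrib]
    _ = (2 * (∑ S : Finset (Fin s → Bool), ∑ u, AA s L sn S u)) * (2^(2^a) * (1 + Real.exp (-L))^(2^s)) := by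
        congr 1
        have : ∑ S : Finset (Fin s → Bool), ∑ v, AA s L sn (univ \ S) v
            = ∑ S : Finset (Fin s → Bool), ∑ u, AA s L sn S u := by
          have hinv : Function.Involutive (fun S : Finset (Fin s → Bool) => univ \ S) := by
            intro S; simp
          exact Fintype.sum_equiv hinv.toPerm _ _ (fun S => rfl)
        rw [this]; ring
    _ ≤ _ := by
        gcongr
        exact AA_sum_all s L hL sn

end Pool.Agent.Work.Disc
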