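import Mathlib
import Pool.Agent.Work.MP_69459d_co.Zb

set_option autoImplicit false

namespace Pool.Agent.Work.Disc

open Finset

/-- the one-row estimate -/
lemma row_core (l : ℕ) (hl : 1 ≤ l) (g : ℝ) (hg : 100 ≤ g) (hgl : g^2 = 2*l) (h : ℝ) (h0 : 0 ≤ h) :
    (cnt (2*l) ((1+1/20000)*(256*g) - (256*g)*h) : ℝ) ≤
      (4:ℝ)^l * (0.55 * Real.exp (-((64 * rr l * g)*(h^2-1))) * Real.exp (-(8*(h-1)^2))) := by
  obtain ⟨l', rfl⟩ : ∃ l', l = l' + 1 := ⟨l - 1, by omega⟩
  set l := l' + 1 with hldef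
  have hp0 := pp_pos l
  have hpu := pp_upper l
  have hpl := pp_lower l'
  rw [← hldef] at hpl
  have hg0 : 0 < g := by linarith
  -- p g ≤ 1
  have hpg1 : pp l * g ≤ 1 := by
    have h2 : (pp l * g)^2 ≤ 1 := by
      have : (pp l * g)^2 = (pp l)^2 * (2*l) := by rw [mul_pow, hgl]
      rw [this]
      nlinarith [sq_nonneg (pp l)]
    have h3 : 0 ≤ pp l * g := by positivity
    nlinarith
  have hpg2 : 0.7 ≤ pp l * g := by
    have h2 : 1 ≤ 2 * (pp l * g)^2 := by
      have : (pp l * g)^2 = (pp l)^2 * (2*l) := by rw [mul_pow, hgl]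
      rw [this]
      have e : 2 * ((pp l)^2 * (2*(l:ℝ))) = (pp l)^2 * (4*((l:ℕ):ℝ)) := by ring
      rw [e]; exact hpl
    have h3 : 0 ≤ pp l * g := by positivity
    by_contra hcon
    push Not at hcon
    nlinarith
  have hp1 : pp l ≤ 0.01 := by
    by_contra hcon
    push Not at hcon
    nlinarith
  -- bounds on lambda
  set lam : ℝ := 64 * rr l * g with hlam
  have hrr : rr l * g = 2 * (pp l * g) / (1 + pp l) := by rw [rr_pp]; ring
  have hlam1 : lam ≤ 128 := by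
    have : rr l * g ≤ 2 := by
      rw [hrr, div_le_iff₀ (by linarith)]; nlinarith
    rw [hlam]; nlinarith
  have hlam2 : 88 ≤ lam := by
    have : 1.38 ≤ rr l * g := by
      rw [hrr, le_div_iff₀ (by linarith)]; nlinarith
    rw [hlam]; nlinarith
  have h4 : (0:ℝ) < (4:ℝ)^l := by positivity
  have hS0 : S0 l ≤ (4:ℝ)^l * 0.505 := by
    rw [S0_pp]; gcongr; linarith
  have hk : (2:ℝ)^(2*l) = (4:ℝ)^l := by rw [pow_mul]; norm_num
  set v : ℝ := h - 1 with hv
  have hh : h = 1 + v := by rw [hv]; ring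
  have hs : (1+1/20000)*(256*g) - (256*g)*h = 256*g*(1/20000 - v) := by rw [hh]; ring
  rw [hs]
  have hexp : Real.exp (-(lam*(h^2-1))) * Real.exp (-(8*v^2)) =
      Real.exp (-(2*lam*v) - (lam+8)*v^2) := by
    rw [← Real.exp_add]; congr 1; rw [hh]; ring
  rw [mul_assoc (0.55:ℝ), hexp]
  rcases le_or_gt v (-(1/64)) with hc | hc
  · -- case C
    have h1 : (cnt (2*l) (256*g*(1/20000 - v)) : ℝ) ≤ (4:ℝ)^l := by
      rw [← hk]; exact cnt_le_two_pow _ _
    have h2 : (1.25:ℝ) ≤ -(2*lam*v) - (lam+8)*v^2 := by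
      have hv1 : -1 ≤ v := by linarith
      have e : -(2*lam*v) - (lam+8)*v^2 = (-v)*(lam*(2+v) - 8*(-v)) := by ring
      rw [e]
      have e1 : 80 ≤ lam*(2+v) - 8*(-v) := by nlinarith
      nlinarith
    have h3 : (2.25:ℝ) ≤ Real.exp (-(2*lam*v) - (lam+8)*v^2) := by
      have := Real.add_one_le_exp (-(2*lam*v) - (lam+8)*v^2)
      linarith
    nlinarith
  · rcases le_or_gt v (1/64) with hc2 | hc2
    · -- case A
      have h1 := cnt_exp l (256*g*(1/20000 - v))
      have e1 : rr l * (256*g*(1/20000 - v)) / 2 = 2*lam*(1/20000 - v) := by rw [hlam]; ring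
      rw [e1] at h1
      have h2 : Real.exp (-(2*lam*v) - (lam+8)*v^2) =
          Real.exp (2*lam*(1/20000 - v)) * Real.exp (-(2*lam*(1/20000) + (lam+8)*v^2)) := by
        rw [← Real.exp_add]; congr 1; ring
      have h3 : (0.95:ℝ) ≤ Real.exp (-(2*lam*(1/20000) + (lam+8)*v^2)) := by
        have h5 := Real.add_one_le_exp (-(2*lam*(1/20000) + (lam+8)*v^2))
        have h6 : v^2 ≤ (1/64)^2 := by nlinarith
        nlinarith
      rw [h2]
      have hE : 0 < Real.exp (2*lam*(1/20000 - v)) := Real.exp_pos _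
      calc (cnt (2*l) (256*g*(1/20000 - v)) : ℝ) ≤ S0 l * Real.exp (2*lam*(1/20000 - v)) := h1
        _ ≤ ((4:ℝ)^l * 0.505) * Real.exp (2*lam*(1/20000 - v)) := by gcongr
        _ = ((4:ℝ)^l * Real.exp (2*lam*(1/20000 - v))) * 0.505 := by ring
        _ ≤ ((4:ℝ)^l * Real.exp (2*lam*(1/20000 - v))) * (0.55 * 0.95) := by
            apply mul_le_mul_of_nonneg_left _ (mul_pos h4 hE).le
            norm_num
        _ = (4:ℝ)^l * (0.55 * (Real.exp (2*lam*(1/20000 - v)) * 0.95)) := by ring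
        _ ≤ _ := by gcongr
    · -- case B
      have hs0 : 256*g*(1/20000 - v) ≤ 0 := by nlinarith
      have h1 := cnt_hoeffding (2*l) (by omega) (256*g*(1/20000 - v)) hs0
      have e1 : -((256*g*(1/20000 - v))^2)/(2*((2*l : ℕ):ℝ)) = -(32768*(v-1/20000)^2) := by
        have : ((2*l : ℕ):ℝ) = g^2 := by rw [hgl]; push_cast; ring
        rw [this]; field_simp; ring
      rw [e1, hk] at h1
      have h2 : Real.exp (-(2*lam*v) - (lam+8)*v^2) =
          Real.exp (-(32768*(v-1/20000)^2)) *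
            Real.exp (32768*(v-1/20000)^2 - (2*lam*v) - (lam+8)*v^2) := by
        rw [← Real.exp_add]; congr 1; ring
      have h3 : (2:ℝ) ≤ Real.exp (32768*(v-1/20000)^2 - (2*lam*v) - (lam+8)*v^2) := by
        have h5 := Real.add_one_le_exp (32768*(v-1/20000)^2 - (2*lam*v) - (lam+8)*v^2)
        have h6 : 0.98 * v^2 ≤ (v-1/20000)^2 := by nlinarith
        have h7 : 32000*v^2 - 256*v - 136*v^2 ≤ 32768*(v-1/20000)^2 - (2*lam*v) - (lam+8)*v^2 := by
          nlinarith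
        nlinarith
      rw [h2]
      have hE : 0 < Real.exp (-(32768*(v-1/20000)^2)) := Real.exp_pos _
      calc (cnt (2*l) (256*g*(1/20000 - v)) : ℝ) ≤ (4:ℝ)^l * Real.exp (-(32768*(v-1/20000)^2)) := h1
        _ = ((4:ℝ)^l * Real.exp (-(32768*(v-1/20000)^2))) * 1 := by ring
        _ ≤ ((4:ℝ)^l * Real.exp (-(32768*(v-1/20000)^2))) * (0.55 * 2) := by
            apply mul_le_mul_of_nonneg_left _ (mul_pos h4 hE).le
            norm_num
        _ = (4:ℝ)^l * (0.55 * (Real.exp (-(32768*(v-1/20000)^2)) * 2)) := by ring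
        _ ≤ _ := by gcongr

lemma row_final (l : ℕ) (hl : 1 ≤ l) (g : ℝ) (hg : 100 ≤ g) (hgl : g^2 = 2*l) (T : ℝ) :
    (cnt (2*l) ((1+1/20000)*(256*g) - |T|) : ℝ) ≤
      ((4:ℝ)^l * 0.55) * (Real.exp (-((64 * rr l * g)*((T/(256*g))^2-1))) * rowf 8 (T/(256*g))) := by
  have hg0 : 0 < 256*g := by linarith
  have h := row_core l hl g hg hgl (|T|/(256*g)) (by positivity)
  have e1 : (256*g) * (|T|/(256*g)) = |T| := by field_simp
  rw [e1] at h
  have e2 : (|T|/(256*g))^2 = (T/(256*g))^2 := by rw [div_pow, div_pow, sq_abs]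
  rw [e2] at h
  have h3 : Real.exp (-(8*(|T|/(256*g)-1)^2)) ≤ rowf 8 (T/(256*g)) := by
    unfold rowf
    rcases le_total 0 T with hT | hT
    · rw [abs_of_nonneg hT]
      have := Real.exp_pos (-(8*(T/(256*g)+1)^2))
      linarith
    · rw [abs_of_nonpos hT]
      have e3 : (-T/(256*g)-1)^2 = (T/(256*g)+1)^2 := by ring
      rw [e3]
      have := Real.exp_pos (-(8*(T/(256*g)-1)^2))
      linarith
  calc (cnt (2*l) ((1+1/20000)*(256*g) - |T|) : ℝ) ≤ _ := h
    _ = ((4:ℝ)^l * 0.55) * (Real.exp (-((64 * rr l * g)*((T/(256*g))^2-1))) *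
          Real.exp (-(8*(|T|/(256*g)-1)^2))) := by ring
    _ ≤ _ := by gcongr

end Pool.Agent.Work.Disc
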