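import Mathlib
import Pool.Agent.Work.MP_69459d_co.Row

set_option autoImplicit false

namespace Pool.Agent.Work.Disc

open Finset

/-- the Hadamard rows applied to a pair of sign vectors -/
noncomputable def TT (s : ℕ) (u v : (Fin s → Bool) → Bool) :
    (Fin s → Bool) ⊕ (Fin s → Bool) → ℝ
  | Sum.inl t => tr s u t + tr s v t
  | Sum.inr t => tr s u t - tr s v t

lemma sg_sq (b : Bool) : (sg b)^2 = 1 := by cases b <;> simp [sg]

lemma tr_norm (s : ℕ) (u : (Fin s → Bool) → Bool) :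
    ∑ t, (tr s u t)^2 = (2:ℝ)^s * (2:ℝ)^s := by
  unfold tr
  rw [gg_norm]
  simp [sg_sq]

lemma TT_norm (s : ℕ) (u v : (Fin s → Bool) → Bool) (sn : ℝ) (hsn0 : 0 < sn)
    (hsn : sn^2 = 2 * 2^s) :
    ∑ r, ((TT s u v r/sn)^2 - 1) = 0 := by
  rw [Fintype.sum_sum_type]
  simp only [TT]
  rw [← sum_add_distrib]
  have e : ∀ t, ((tr s u t + tr s v t)/sn)^2 - 1 + (((tr s u t - tr s v t)/sn)^2 - 1)
      = (2/sn^2) * (tr s u t)^2 + (2/sn^2) * (tr s v t)^2 - 2 := by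
    intro t; field_simp; ring
  simp_rw [e]
  rw [sum_sub_distrib, sum_add_distrib, ← mul_sum, ← mul_sum, tr_norm, tr_norm, hsn]
  simp
  field_simp
  ring

/-- counting matrices all of whose rows are good for a fixed `x` -/
lemma bad_count (s k : ℕ) (M : ℝ) (u v : (Fin s → Bool) → Bool) (x : Fin k → Bool) :
    ((univ.filter (fun R : (Fin s → Bool) ⊕ (Fin s → Bool) → Fin k → Bool =>
      ∀ r, |TT s u v r + ∑ j, sg (R r j) * sg (x j)| ≤ M)).card : ℝ)
    ≤ ∏ r, (cnt k (M - |TT s u v r|) : ℝ) := by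
  classical
  have h1 : univ.filter (fun R : (Fin s → Bool) ⊕ (Fin s → Bool) → Fin k → Bool =>
      ∀ r, |TT s u v r + ∑ j, sg (R r j) * sg (x j)| ≤ M)
      = Fintype.piFinset (fun r => univ.filter (fun y : Fin k → Bool =>
          |TT s u v r + ∑ j, sg (y j) * sg (x j)| ≤ M)) := by
    ext R
    simp [Fintype.mem_piFinset]
  rw [h1, Fintype.card_piFinset]
  push_cast
  apply prod_le_prod
  · intro r _; positivity
  · intro r _
    exact_mod_cast row_count k (TT s u v r) M x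

/-- product over the rows of the one-row estimate -/
lemma prod_bound (s l : ℕ) (hl : 1 ≤ l) (g : ℝ) (hg : 100 ≤ g) (hgl : g^2 = 2*l)
    (hsn : (256*g)^2 = 2 * 2^s) (u v : (Fin s → Bool) → Bool) :
    ∏ r, (cnt (2*l) ((1+1/20000)*(256*g) - |TT s u v r|) : ℝ) ≤
      ((4:ℝ)^l * 0.55)^(2 * 2^s) *
       ∏ t, (rowf 8 ((tr s u t + tr s v t)/(256*g)) * rowf 8 ((tr s u t - tr s v t)/(256*g))) := by
  have hg0 : 0 < 256*g := by linarith
  calc ∏ r, (cnt (2*l) ((1+1/20000)*(256*g) - |TT s u v r|) : ℝ)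
      ≤ ∏ r, (((4:ℝ)^l * 0.55) * (Real.exp (-((64 * rr l * g)*((TT s u v r/(256*g))^2-1)))
          * rowf 8 (TT s u v r/(256*g)))) := by
        apply prod_le_prod
        · intro r _; positivity
        · intro r _; exact row_final l hl g hg hgl _
    _ = ((4:ℝ)^l * 0.55)^(2 * 2^s) * (Real.exp (∑ r, -((64 * rr l * g)*((TT s u v r/(256*g))^2-1)))
          * ∏ r, rowf 8 (TT s u v r/(256*g))) := by
        have hcd : ∏ r : (Fin s → Bool) ⊕ (Fin s → Bool), ((4:ℝ)^l * 0.55)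
            = ((4:ℝ)^l * 0.55)^(2 * 2^s) := by
          rw [prod_const]
          congr 1
          simp [Fintype.card_sum]; ring
        rw [← hcd, Real.exp_sum, ← prod_mul_distrib, ← prod_mul_distrib]
    _ = _ := by
        rw [sum_neg_distrib, ← mul_sum, TT_norm s u v (256*g) hg0 hsn]
        simp only [mul_zero, neg_zero, Real.exp_zero, one_mul]
        congr 1
        rw [Fintype.prod_sum_type]
        simp only [TT]
        rw [← prod_mul_distrib]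

lemma numeric_B : (0.55:ℝ)^4 * 8 * ((1 + Real.exp (-(8/2)) + Real.exp (-(2*8))) * (1 + Real.exp (-8)))^2 ≤ 0.8 := by
  have h1 : Real.exp (-1) < 0.37 := by
    have := Real.exp_neg_one_lt_d9; linarith
  have h4 : Real.exp (-(8/2)) ≤ 0.019 := by
    have e : Real.exp (-(8/2)) = (Real.exp (-1))^4 := by rw [← Real.exp_nat_mul]; norm_num
    rw [e]
    calc (Real.exp (-1))^4 ≤ (0.37:ℝ)^4 := by gcongr
      _ ≤ 0.019 := by norm_num
  have h8 : Real.exp (-8) ≤ 0.0004 := by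
    have e : Real.exp (-8) = (Real.exp (-(8/2)))^2 := by rw [← Real.exp_nat_mul]; norm_num
    rw [e]
    calc (Real.exp (-(8/2)))^2 ≤ (0.019:ℝ)^2 := by gcongr
      _ ≤ 0.0004 := by norm_num
  have h16 : Real.exp (-(2*8)) ≤ 0.0001 := by
    have e : Real.exp (-(2*8)) = (Real.exp (-8))^2 := by rw [← Real.exp_nat_mul]; norm_num
    rw [e]
    calc (Real.exp (-8))^2 ≤ (0.0004:ℝ)^2 := by gcongr
      _ ≤ 0.0001 := by norm_num
  calc (0.55:ℝ)^4 * 8 * ((1 + Real.exp (-(8/2)) + Real.exp (-(2*8))) * (1 + Real.exp (-8)))^2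
      ≤ (0.55:ℝ)^4 * 8 * ((1 + 0.019 + 0.0001) * (1 + 0.0004))^2 := by gcongr
    _ ≤ 0.8 := by norm_num

lemma pow_aux (l mu : ℕ) (hl1 : 1 ≤ l) (h : 16 * l ≤ mu) : (4:ℝ)^l * (0.8:ℝ)^mu ≤ 0.25 := by
  have h1 : (0.8:ℝ)^mu ≤ (0.8:ℝ)^(16*l) := pow_le_pow_of_le_one (by norm_num) (by norm_num) h
  calc (4:ℝ)^l * (0.8:ℝ)^mu ≤ (4:ℝ)^l * (0.8:ℝ)^(16*l) := by gcongr
    _ = ((4:ℝ) * (0.8:ℝ)^16)^l := by rw [pow_mul, ← mul_pow]
    _ ≤ (0.25:ℝ)^l := by
        gcongr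
        norm_num
    _ ≤ (0.25:ℝ)^1 := pow_le_pow_of_le_one (by norm_num) (by norm_num) hl1
    _ = 0.25 := by norm_num

lemma alg_e1 (l mu : ℕ) (Cp C1 : ℝ) : (4:ℝ)^l * (((4:ℝ)^l * 0.55)^(2 * (2*mu)) *
        (2 * (2^(2*mu) * Cp^(2*mu)) * (2^mu * C1^(2*mu))))
      = ((4:ℝ)^l)^(2*(2*mu)) * (2 * (4:ℝ)^l * ((0.55:ℝ)^4 * 8 * (Cp * C1)^2)^mu) := by
  generalize hx : (4:ℝ)^l = x
  rw [mul_pow x 0.55]
  have a1 : (0.55:ℝ)^(2*(2*mu)) = ((0.55:ℝ)^4)^mu := by rw [← pow_mul]; congr 1; ring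
  have a2 : (2:ℝ)^(2*mu) * 2^mu = 8^mu := by
    rw [pow_mul, ← mul_pow]; norm_num
  have a3 : Cp^(2*mu) * C1^(2*mu) = ((Cp*C1)^2)^mu := by
    rw [← mul_pow, pow_mul]
  rw [mul_pow ((0.55:ℝ)^4 * 8), mul_pow ((0.55:ℝ)^4), a1, ← a2, ← a3]
  ring

/-- existence of a good random part -/
theorem exists_R (i : ℕ) (s k l : ℕ) (g : ℝ) (hs : s = 2*i+29) (hk : k = 2*l) (hl : l = 2^(2*i+13))
    (hg : g = 2^(i+7)) :
    ∃ R : (Fin s → Bool) ⊕ (Fin s → Bool) → Fin k → Bool,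
      ∀ u v : (Fin s → Bool) → Bool, ∀ x : Fin k → Bool,
        ∃ r, (1+1/20000)*(256*g) < |TT s u v r + ∑ j, sg (R r j) * sg (x j)| := by
  classical
  set M : ℝ := (1+1/20000)*(256*g) with hM
  by_contra hcon
  push Not at hcon
  have hl1 : 1 ≤ l := by rw [hl]; exact Nat.one_le_two_pow
  have hg100 : (100:ℝ) ≤ g := by
    rw [hg, pow_add]
    have : (1:ℝ) ≤ 2^i := one_le_pow₀ (by norm_num)
    norm_num; linarith
  have hgl : g^2 = 2*(l:ℝ) := by
    rw [hg, hl]; push_cast; ring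
  have hsn : (256*g)^2 = 2 * (2:ℝ)^s := by
    rw [hg, hs]; ring
  have hg0 : 0 < 256*g := by linarith
  subst hk
  -- all matrices are bad
  have hcover : (univ : Finset ((Fin s → Bool) ⊕ (Fin s → Bool) → Fin (2*l) → Bool)) ⊆
      (univ : Finset (((Fin s → Bool) → Bool) × ((Fin s → Bool) → Bool) × (Fin (2*l) → Bool))).biUnion
       (fun p => univ.filter (fun R : (Fin s → Bool) ⊕ (Fin s → Bool) → Fin (2*l) → Bool =>
          ∀ r, |TT s p.1 p.2.1 r + ∑ j, sg (R r j) * sg (p.2.2 j)| ≤ M)) := by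
    intro R _
    obtain ⟨u, v, x, h⟩ := hcon R
    simp only [mem_biUnion, mem_univ, true_and, mem_filter]
    exact ⟨(u, v, x), h⟩
  have hcard : ((2:ℝ)^(2*l))^(2*2^s) ≤
      ∑ p : ((Fin s → Bool) → Bool) × ((Fin s → Bool) → Bool) × (Fin (2*l) → Bool),
        ((univ.filter (fun R : (Fin s → Bool) ⊕ (Fin s → Bool) → Fin (2*l) → Bool =>
          ∀ r, |TT s p.1 p.2.1 r + ∑ j, sg (R r j) * sg (p.2.2 j)| ≤ M)).card : ℝ) := by
    have h1 := (card_le_card hcover).trans card_biUnion_le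
    have h2 : (univ : Finset ((Fin s → Bool) ⊕ (Fin s → Bool) → Fin (2*l) → Bool)).card
        = (2^(2*l))^(2*2^s) := by
      rw [card_univ, Fintype.card_fun, Fintype.card_fun, Fintype.card_sum, Fintype.card_fun]
      simp only [Fintype.card_bool, Fintype.card_fin]
      congr 1; ring
    rw [h2] at h1
    exact_mod_cast h1
  -- bound the sum
  have hb : ∑ p : ((Fin s → Bool) → Bool) × ((Fin s → Bool) → Bool) × (Fin (2*l) → Bool),
        ((univ.filter (fun R : (Fin s → Bool) ⊕ (Fin s → Bool) → Fin (2*l) → Bool =>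
          ∀ r, |TT s p.1 p.2.1 r + ∑ j, sg (R r j) * sg (p.2.2 j)| ≤ M)).card : ℝ)
      ≤ (4:ℝ)^l * (((4:ℝ)^l * 0.55)^(2 * 2^s) *
        (2 * (2^(2^s) * (1 + Real.exp (-(8/2)) + Real.exp (-(2*8)))^(2^s)) *
        (2^(2^(2*i+28)) * (1 + Real.exp (-8))^(2^s)))) := by
    rw [Fintype.sum_prod_type]
    have hZ := Zbound s (2*i+28) (by omega) 8 (by norm_num) (256*g) hg0 hsn
    calc ∑ u : (Fin s → Bool) → Bool, ∑ q : ((Fin s → Bool) → Bool) × (Fin (2*l) → Bool),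
          ((univ.filter (fun R : (Fin s → Bool) ⊕ (Fin s → Bool) → Fin (2*l) → Bool =>
          ∀ r, |TT s u q.1 r + ∑ j, sg (R r j) * sg (q.2 j)| ≤ M)).card : ℝ)
        ≤ ∑ u : (Fin s → Bool) → Bool, ∑ v : (Fin s → Bool) → Bool, ∑ x : Fin (2*l) → Bool,
          (((4:ℝ)^l * 0.55)^(2 * 2^s) *
          ∏ t, (rowf 8 ((tr s u t + tr s v t)/(256*g)) * rowf 8 ((tr s u t - tr s v t)/(256*g)))) := by
          apply sum_le_sum
          intro u _
          rw [Fintype.sum_prod_type]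
          apply sum_le_sum
          intro v _
          apply sum_le_sum
          intro x _
          exact (bad_count s (2*l) M u v x).trans (prod_bound s l hl1 g hg100 hgl hsn u v)
      _ = (4:ℝ)^l * (((4:ℝ)^l * 0.55)^(2 * 2^s) * ∑ u : (Fin s → Bool) → Bool, ∑ v : (Fin s → Bool) → Bool,
          ∏ t, (rowf 8 ((tr s u t + tr s v t)/(256*g)) * rowf 8 ((tr s u t - tr s v t)/(256*g)))) := by
          simp only [sum_const, card_univ, Fintype.card_fun, Fintype.card_bool, Fintype.card_fin,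
            nsmul_eq_mul]
          simp_rw [← mul_sum]
          congr 1
          push_cast
          rw [pow_mul]; norm_num
      _ ≤ _ := by gcongr
  have hfin := hcard.trans hb
  -- numeric contradiction
  obtain ⟨mu, hmu⟩ : ∃ mu : ℕ, mu = 2^(2*i+28) := ⟨_, rfl⟩
  rw [← hmu] at hfin
  have hms : 2^s = 2*mu := by rw [hs, hmu]; ring
  have hmul : mu = 32768 * l := by rw [hmu, hl]; ring
  set Cp : ℝ := 1 + Real.exp (-(8/2)) + Real.exp (-(2*8)) with hCp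
  set C1 : ℝ := 1 + Real.exp (-8) with hC1
  have hCp0 : 0 < Cp := by positivity
  have hC10 : 0 < C1 := by positivity
  have hB := numeric_B
  rw [← hCp, ← hC1] at hB
  rw [hms] at hfin
  have h4 : (2:ℝ)^(2*l) = (4:ℝ)^l := by rw [pow_mul]; norm_num
  rw [h4] at hfin
  have e1 := alg_e1 l mu Cp C1
  rw [e1] at hfin
  have hpos : 0 < ((4:ℝ)^l)^(2*(2*mu)) := by positivity
  have h5 : 1 ≤ 2 * (4:ℝ)^l * ((0.55:ℝ)^4 * 8 * (Cp * C1)^2)^mu := by
    apply le_of_mul_le_mul_left _ hpos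
    rw [mul_one]; exact hfin
  have h6 : 2 * (4:ℝ)^l * ((0.55:ℝ)^4 * 8 * (Cp * C1)^2)^mu ≤ 2 * (4:ℝ)^l * (0.8:ℝ)^mu := by
    gcongr
  have h7 : (4:ℝ)^l * (0.8:ℝ)^mu ≤ 0.25 := by
    exact pow_aux l mu hl1 (by omega)
  linarith

end Pool.Agent.Work.Disc
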