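import Mathlib
import Pool.Agent.Work.MP_69459d_co.Main

set_option autoImplicit false

namespace Pool.Agent.Work.Disc

open Finset

/-- index type of the final matrix -/
abbrev Idx (s k : ℕ) := ((Fin s → Bool) ⊕ (Fin s → Bool)) ⊕ Fin k

/-- the final matrix: two block rows of Sylvester's matrix with a random part appended,
    and rows of ones at the bottom -/
def bigA (s k : ℕ) (R : (Fin s → Bool) ⊕ (Fin s → Bool) → Fin k → Bool) : Matrix (Idx s k) (Idx s k) ℤ
  | Sum.inl (Sum.inl t), Sum.inl (Sum.inl j) => syl s t j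
  | Sum.inl (Sum.inl t), Sum.inl (Sum.inr j) => syl s t j
  | Sum.inl (Sum.inr t), Sum.inl (Sum.inl j) => syl s t j
  | Sum.inl (Sum.inr t), Sum.inl (Sum.inr j) => - syl s t j
  | Sum.inl r, Sum.inr j => if R r j then 1 else -1
  | Sum.inr _, _ => 1

lemma bigA_pm (s k : ℕ) (R : (Fin s → Bool) ⊕ (Fin s → Bool) → Fin k → Bool) (i j : Idx s k) :
    bigA s k R i j = 1 ∨ bigA s k R i j = -1 := by
  rcases i with (t | t) | t
  · rcases j with (j | j) | j
    · exact syl_pm s t j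
    · exact syl_pm s t j
    · simp only [bigA]; split_ifs <;> simp
  · rcases j with (j | j) | j
    · exact syl_pm s t j
    · simp only [bigA]
      rcases syl_pm s t j with h | h <;> rw [h] <;> simp
    · simp only [bigA]; split_ifs <;> simp
  · left; rcases j with (j | j) | j <;> rfl

lemma sg_decide (z : ℤ) (hz : z = 1 ∨ z = -1) : sg (decide (z = 1)) = (z : ℝ) := by
  rcases hz with h | h <;> rw [h] <;> simp [sg]

lemma sg_if (b : Bool) : (((if b then 1 else -1 : ℤ)) : ℝ) = sg b := by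
  cases b <;> simp [sg]

lemma bigA_mulVec (s k : ℕ) (R : (Fin s → Bool) ⊕ (Fin s → Bool) → Fin k → Bool)
    (x : Idx s k → ℤ) (hx : ∀ j, x j = 1 ∨ x j = -1) (r : (Fin s → Bool) ⊕ (Fin s → Bool)) :
    (((bigA s k R).mulVec x (Sum.inl r) : ℤ) : ℝ) =
      TT s (fun j => decide (x (Sum.inl (Sum.inl j)) = 1)) (fun j => decide (x (Sum.inl (Sum.inr j)) = 1)) r
        + ∑ j, sg (R r j) * sg (decide (x (Sum.inr j) = 1)) := by
  have h1 : ∀ j, sg (decide (x (Sum.inl (Sum.inl j)) = 1)) = (x (Sum.inl (Sum.inl j)) : ℝ) :=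
    fun j => sg_decide _ (hx _)
  have h2 : ∀ j, sg (decide (x (Sum.inl (Sum.inr j)) = 1)) = (x (Sum.inl (Sum.inr j)) : ℝ) :=
    fun j => sg_decide _ (hx _)
  have h3 : ∀ j, sg (decide (x (Sum.inr j) = 1)) = (x (Sum.inr j) : ℝ) :=
    fun j => sg_decide _ (hx _)
  rcases r with t | t
  · simp only [TT, tr, Matrix.mulVec, dotProduct, Fintype.sum_sum_type, bigA, gg, h1, h2, h3]
    push_cast
    congr 1
  · simp only [TT, tr, Matrix.mulVec, dotProduct, Fintype.sum_sum_type, bigA, gg, h1, h2, h3]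
    push_cast
    congr 1
    · rw [sub_eq_add_neg, ← sum_neg_distrib]
      congr 1
      apply sum_congr rfl
      intro j _
      ring

theorem final :
    ∃ c : ℝ, 1 < c ∧ ∀ N : ℕ, ∃ n : ℕ, N ≤ n ∧
      ∃ A : Matrix (Fin n) (Fin n) ℤ, (∀ i j, A i j = 1 ∨ A i j = -1) ∧
        ∀ x : Fin n → ℤ, (∀ j, x j = 1 ∨ x j = -1) →
          ∃ i : Fin n, c * Real.sqrt (n : ℝ) ≤ |(((Matrix.mulVec A x) i : ℤ) : ℝ)| := by
  refine ⟨1 + 1/100000, by norm_num, ?_⟩
  intro i
  obtain ⟨l, hl⟩ : ∃ l : ℕ, l = 2^(2*i+13) := ⟨_, rfl⟩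
  obtain ⟨s, hs⟩ : ∃ s : ℕ, s = 2*i+29 := ⟨_, rfl⟩
  obtain ⟨g, hg⟩ : ∃ g : ℝ, g = 2^(i+7) := ⟨_, rfl⟩
  obtain ⟨R, hR⟩ := exists_R i s (2*l) l g hs rfl hl hg
  obtain ⟨n, hn⟩ : ∃ n : ℕ, n = 2*2^s + 2*l := ⟨_, rfl⟩
  refine ⟨n, ?_, ?_⟩
  · have h1 : i < 2^i := Nat.lt_two_pow_self
    have h2 : 2^i ≤ 2^(2*i+13) := Nat.pow_le_pow_right (by norm_num) (by omega)
    rw [hn, hl]; omega
  · have hcard : Fintype.card (Idx s (2*l)) = n := by
      simp only [Idx, Fintype.card_sum, Fintype.card_fun, Fintype.card_bool, Fintype.card_fin]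
      rw [hn]; ring
    let e : Fin n ≃ Idx s (2*l) := (Fintype.equivFinOfCardEq hcard).symm
    refine ⟨(bigA s (2*l) R).submatrix e e, ?_, ?_⟩
    · intro a b; exact bigA_pm _ _ _ _ _
    · intro x hx
      set x' : Idx s (2*l) → ℤ := fun c => x (e.symm c) with hx'
      have hx'1 : ∀ c, x' c = 1 ∨ x' c = -1 := fun c => hx _
      obtain ⟨r, hr⟩ := hR (fun j => decide (x' (Sum.inl (Sum.inl j)) = 1))
        (fun j => decide (x' (Sum.inl (Sum.inr j)) = 1)) (fun j => decide (x' (Sum.inr j) = 1))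
      refine ⟨e.symm (Sum.inl r), ?_⟩
      have hmul : ((bigA s (2*l) R).submatrix e e).mulVec x (e.symm (Sum.inl r))
          = (bigA s (2*l) R).mulVec x' (Sum.inl r) := by
        simp only [Matrix.mulVec, dotProduct, Matrix.submatrix_apply, Equiv.apply_symm_apply]
        rw [← Equiv.sum_comp e (fun c => bigA s (2*l) R (Sum.inl r) c * x' c)]
        simp [hx']
      rw [hmul, bigA_mulVec s (2*l) R x' hx'1 r]
      refine le_trans ?_ hr.le
      -- numeric comparison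
      have hg0 : 0 < g := by rw [hg]; positivity
      have hgl : g^2 = 2*(l:ℝ) := by rw [hg, hl]; push_cast; ring
      have hsn : (256*g)^2 = 2 * (2:ℝ)^s := by rw [hg, hs]; ring
      have hnr : (n:ℝ) = (256*g)^2 * (1 + 1/65536) := by
        rw [hn]; push_cast
        have : (256*g)^2 * (1 + 1/65536) = (256*g)^2 + g^2 := by ring
        rw [this, hsn, hgl]
      have hsq : Real.sqrt (n:ℝ) ≤ (256*g) * (1 + 1/131072) := by
        rw [hnr]
        apply Real.sqrt_le_iff.mpr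
        constructor
        · positivity
        · nlinarith [sq_nonneg (256*g)]
      calc (1 + 1/100000) * Real.sqrt (n:ℝ) ≤ (1 + 1/100000) * ((256*g) * (1 + 1/131072)) := by gcongr
        _ ≤ (1+1/20000)*(256*g) := by nlinarith

end Pool.Agent.Work.Disc
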